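-- module Pool.Agent.Run7.h136.GM.SAME (contains t_SAME and t_DIFF)
import Pool.Agent.Run7.h834.GM.Iface

set_option autoImplicit false

/-!
# Project GM (helper834), pieces SAME and DIFF
-/

namespace Run7.h136.GM

open SimpleGraph Filter Topology
open Pool.Agent.TH507.Host Run7.h834.GM

/-- minors are transported by injective homomorphisms -/
theorem minor_map {W V V' : Type} {H : SimpleGraph W} {G : SimpleGraph V} {G' : SimpleGraph V'}
    (φ : V → V') (hφ : Function.Injective φ) (hadj : ∀ u v, G.Adj u v → G'.Adj (φ u) (φ v))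
    (h : IsMinor H G) : IsMinor H G' := by
  obtain ⟨B, h1, h2, h3⟩ := h
  refine ⟨fun x => φ '' B x, fun x => ?_, fun x y hxy => ?_, fun x y hxy => ?_⟩
  · let f : G.induce (B x) →g G'.induce (φ '' B x) :=
      ⟨fun v => ⟨φ v, Set.mem_image_of_mem φ v.2⟩, fun {u v} huv => hadj u v huv⟩
    refine (h1 x).map f ?_
    rintro ⟨_, v, hv, rfl⟩
    exact ⟨⟨v, hv⟩, rfl⟩
  · exact Set.disjoint_image_of_injective hφ (h2 x y hxy)
  · obtain ⟨u, hu, v, hv, huv⟩ := h3 x y hxy
    exact ⟨φ u, Set.mem_image_of_mem φ hu, φ v, Set.mem_image_of_mem φ hv, hadj u v huv⟩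

theorem key {F : Set Gr} {V V' : Type} {G : SimpleGraph V} {Gs : SimpleGraph V'}
    (hG : EdgeMax F G) (hs : Free F Gs) {x y : V} (hxy : x ≠ y) (φ : V → V')
    (hφ : Function.Injective φ) (hadj : ∀ u v, G.Adj u v → Gs.Adj (φ u) (φ v))
    (hxy' : Gs.Adj (φ x) (φ y)) : G.Adj x y := by
  by_contra hn
  refine hG.2 x y hxy hn (fun H hH hm => hs H hH (minor_map φ hφ ?_ hm))
  intro u v huv
  rw [SimpleGraph.sup_adj, SimpleGraph.edge_adj] at huv
  rcases huv with h | ⟨⟨rfl, rfl⟩ | ⟨rfl, rfl⟩, _⟩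
  · exact hadj u v h
  · exact hxy'
  · exact hxy'.symm

theorem t_SAME : S_SAME := by
  intro F V G k Gs hG hle hs x y a hadj
  have hxy : x ≠ y := by
    rintro rfl
    exact Gs.irrefl hadj
  refine key hG hs hxy (fun z => (z, a)) (fun u v h => congrArg Prod.fst h) ?_ hadj
  intro u v huv
  exact hle ⟨rfl, huv⟩

theorem t_DIFF : S_DIFF := by
  classical
  intro F V G k Gs hG hle hs x y a b hadj
  by_contra hn
  have hxy : x ≠ y := by
    rintro rfl
    exact hn (SimpleGraph.Reachable.refl x)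
  refine hn (SimpleGraph.Adj.reachable (key hG hs hxy
    (fun z => if G.Reachable y z then (z, b) else (z, a)) ?_ ?_ ?_))
  · intro u v h
    dsimp only at h
    have e : ∀ z : V, (if G.Reachable y z then (z, b) else (z, a)).1 = z := by
      intro z
      split_ifs <;> rfl
    rw [← e u, ← e v, h]
  · intro u v huv
    by_cases h1 : G.Reachable y u
    · rw [if_pos h1, if_pos (h1.trans huv.reachable)]
      exact hle ⟨rfl, huv⟩
    · rw [if_neg h1, if_neg (fun h2 => h1 (h2.trans huv.symm.reachable))]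
      exact hle ⟨rfl, huv⟩
  · rw [if_neg (fun h => hn h.symm), if_pos (SimpleGraph.Reachable.refl y)]
    exact hadj

end Run7.h136.GM
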