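-- module Pool.Agent.Run7.h136.GM.QUO (contains t_QUO, t_CLQ, t_EXT, t_TRF)
import Pool.Agent.Run7.h834.GM.Iface
import Pool.Agent.Run7.h136.GM.SAME

set_option autoImplicit false

/-!
# Project GM (helper834), pieces QUO, CLQ, EXT, TRF
-/

namespace Run7.h136.GM

open SimpleGraph Filter Topology
open Pool.Agent.TH507.Host Run7.h834.GM

theorem same_copy {V : Type} {G : SimpleGraph V} {k : ℕ} {Gs : SimpleGraph (V × Fin k)}
    (hle : cop G k ≤ Gs) (x0 : V) (A : Set (Fin k)) {a : Fin k} (ha : a ∈ A) {x y : V}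
    (p : G.Walk x y) (hx : G.Reachable x0 x) (hy : G.Reachable x0 y) :
    (Gs.induce {q : V × Fin k | G.Reachable x0 q.1 ∧ q.2 ∈ A}).Reachable ⟨(x, a), hx, ha⟩
      ⟨(y, a), hy, ha⟩ := by
  induction p with
  | nil => exact SimpleGraph.Reachable.refl _
  | cons h p ih =>
    have hv := hx.trans h.reachable
    refine SimpleGraph.Reachable.trans ?_ (ih hv hy)
    apply SimpleGraph.Adj.reachable
    exact hle ⟨rfl, h⟩

theorem diff_copy {V : Type} {G : SimpleGraph V} {k : ℕ} {Gs : SimpleGraph (V × Fin k)}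
    (hle : cop G k ≤ Gs) (x0 : V) (A : Set (Fin k)) {a b : A}
    (p : ((Quo G Gs x0).induce A).Walk a b) :
    (Gs.induce {q : V × Fin k | G.Reachable x0 q.1 ∧ q.2 ∈ A}).Reachable
      ⟨(x0, a), SimpleGraph.Reachable.refl x0, a.2⟩
      ⟨(x0, b), SimpleGraph.Reachable.refl x0, b.2⟩ := by
  induction p with
  | nil => exact SimpleGraph.Reachable.refl _
  | @cons u v w h p ih =>
    refine SimpleGraph.Reachable.trans ?_ ih
    obtain ⟨_, x, y, hx, hy, e⟩ := h
    obtain ⟨p1⟩ := hx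
    obtain ⟨p2⟩ := hy
    have h1 := same_copy hle x0 A u.2 p1 (SimpleGraph.Reachable.refl x0) ⟨p1⟩
    have h2 := same_copy hle x0 A v.2 p2 (SimpleGraph.Reachable.refl x0) ⟨p2⟩
    refine h1.trans (SimpleGraph.Reachable.trans ?_ h2.symm)
    apply SimpleGraph.Adj.reachable
    exact e

theorem t_QUO : S_QUO := by
  intro F V G k Gs hle hs x0 H hH hm
  apply hs H hH
  obtain ⟨B, h1, h2, h3⟩ := hm
  refine ⟨fun w => {q : V × Fin k | G.Reachable x0 q.1 ∧ q.2 ∈ B w}, fun w => ?_,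
    fun w w' hww => ?_, fun w w' hww => ?_⟩
  · rw [SimpleGraph.connected_iff]
    obtain ⟨hpre, ⟨a0⟩⟩ := (SimpleGraph.connected_iff _).1 (h1 w)
    refine ⟨?_, ⟨⟨(x0, a0), SimpleGraph.Reachable.refl x0, a0.2⟩⟩⟩
    rintro ⟨⟨x, a⟩, hx, ha⟩ ⟨⟨y, b⟩, hy, hb⟩
    obtain ⟨p1⟩ := id hx
    obtain ⟨p2⟩ := id hy
    obtain ⟨p3⟩ := hpre ⟨a, ha⟩ ⟨b, hb⟩
    have e1 := same_copy hle x0 (B w) ha p1 (SimpleGraph.Reachable.refl x0) hx
    have e2 := same_copy hle x0 (B w) hb p2 (SimpleGraph.Reachable.refl x0) hy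
    have e3 := diff_copy hle x0 (B w) p3
    exact e1.symm.trans (e3.trans e2)
  · rw [Set.disjoint_left]
    rintro ⟨x, a⟩ ⟨_, ha⟩ ⟨_, hb⟩
    exact Set.disjoint_left.1 (h2 w w' hww) ha hb
  · obtain ⟨a, ha, b, hb, _, x, y, hx, hy, e⟩ := h3 w w' hww
    exact ⟨(x, a), ⟨hx, ha⟩, (y, b), ⟨hy, hb⟩, e⟩

theorem t_CLQ : S_CLQ := by
  rintro F ⟨H, hH⟩
  refine ⟨H.1, fun V G hG S hS => ?_⟩
  by_contra hc
  push Not at hc
  apply hG H hH
  have hcard : Fintype.card (Fin H.1) ≤ Fintype.card S := by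
    rw [Fintype.card_fin, Fintype.card_coe]
    exact hc.le
  obtain ⟨φ⟩ := Function.Embedding.nonempty_of_card_le hcard
  refine ⟨fun i => {((φ i : S) : V)}, fun i => ?_, fun i j hij => ?_, fun i j hij => ?_⟩
  · rw [SimpleGraph.connected_iff]
    refine ⟨?_, ⟨⟨_, rfl⟩⟩⟩
    intro u v
    have : u = v := Subsingleton.elim u v
    rw [this]
  · rw [Set.disjoint_singleton]
    intro h
    exact hij (φ.injective (Subtype.ext h))
  · refine ⟨_, rfl, _, rfl, hS (φ i).2 (φ j).2 (fun h => ?_)⟩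
    exact hij.ne (φ.injective (Subtype.ext h))

theorem t_EXT : S_EXT := by
  classical
  intro F V _ G hG
  obtain ⟨G', hle, hmax⟩ := (Set.toFinite {G' : SimpleGraph V | Free F G'}).exists_le_maximal hG
  refine ⟨G', hle, hmax.prop, fun u v huv hn hf => ?_⟩
  apply hn
  have h1 : G' ⊔ SimpleGraph.edge u v ≤ G' := hmax.le_of_ge hf le_sup_left
  apply h1
  rw [SimpleGraph.sup_adj, SimpleGraph.edge_adj]
  exact Or.inr ⟨Or.inl ⟨rfl, rfl⟩, huv⟩

theorem t_TRF : S_TRF := by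
  classical
  intro F V _ G hG
  obtain ⟨e⟩ : Nonempty (V ≃ Fin (Fintype.card V)) := ⟨Fintype.equivFin V⟩
  refine ⟨G.comap e.symm, ⟨?_, ?_⟩, ?_⟩
  · intro H hH hm
    exact hG.1 H hH (minor_map e.symm e.symm.injective (fun u v h => h) hm)
  · intro u v huv hn hf
    refine hG.2 (e.symm u) (e.symm v) (fun h => huv (e.symm.injective h)) hn ?_
    intro H hH hm
    refine hf H hH (minor_map e e.injective ?_ hm)
    intro a b hab
    rw [SimpleGraph.sup_adj, SimpleGraph.edge_adj] at hab ⊢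
    rcases hab with h | ⟨h | h, hne⟩
    · left
      rw [SimpleGraph.comap_adj, Equiv.symm_apply_apply, Equiv.symm_apply_apply]
      exact h
    · right
      exact ⟨Or.inl ⟨by rw [h.1, Equiv.apply_symm_apply], by rw [h.2, Equiv.apply_symm_apply]⟩,
        fun h' => hne (e.injective h')⟩
    · right
      exact ⟨Or.inr ⟨by rw [h.1, Equiv.apply_symm_apply], by rw [h.2, Equiv.apply_symm_apply]⟩,
        fun h' => hne (e.injective h')⟩
  · have i : G.comap e.symm ≃g G := ⟨e.symm, fun {a b} => Iff.rfl⟩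
    exact Nat.card_congr i.mapEdgeSet

end Run7.h136.GM
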