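-- module Pool.Agent.Run7.h136.GM.SUMF (contains t_SUMF, t_COPY)
import Pool.Agent.Run7.h834.GM.Iface

set_option autoImplicit false

/-!
# Project GM (helper834), pieces SUMF and COPY
-/

namespace Run7.h136.GM

open SimpleGraph Filter Topology
open Pool.Agent.TH507.Host Run7.h834.GM

theorem walk_side {X T : Type} {S : SimpleGraph X} (side : X → T)
    (hside : ∀ a b, S.Adj a b → side a = side b) {u v : X} (p : S.Walk u v) :
    side u = side v := by
  induction p with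
  | nil => rfl
  | cons h p ih => exact (hside _ _ h).trans ih

theorem one_side {X T W : Type} {S : SimpleGraph X} (side : X → T)
    (hside : ∀ a b, S.Adj a b → side a = side b) {H : SimpleGraph W} (hH : H.Connected)
    (B : W → Set X) (h1 : ∀ w, (S.induce (B w)).Connected)
    (h3 : ∀ x y, H.Adj x y → ∃ u ∈ B x, ∃ v ∈ B y, S.Adj u v) :
    ∃ t, ∀ w, ∀ v ∈ B w, side v = t := by
  have hc : ∀ w, ∀ u ∈ B w, ∀ v ∈ B w, side u = side v := by
    intro w u hu v hv
    obtain ⟨hpre, _⟩ := (SimpleGraph.connected_iff _).1 (h1 w)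
    obtain ⟨p⟩ := hpre ⟨u, hu⟩ ⟨v, hv⟩
    exact walk_side (S := S.induce (B w)) (fun a => side a.1) (fun a b hab => hside _ _ hab) p
  have hne : ∀ w, ∃ u, u ∈ B w := by
    intro w
    obtain ⟨_, ⟨u⟩⟩ := (SimpleGraph.connected_iff _).1 (h1 w)
    exact ⟨u.1, u.2⟩
  choose e he using hne
  obtain ⟨hpre, ⟨w0⟩⟩ := (SimpleGraph.connected_iff _).1 hH
  refine ⟨side (e w0), fun w v hv => ?_⟩
  obtain ⟨p⟩ := hpre w w0
  have h4 : side (e w) = side (e w0) := by
    refine walk_side (S := H) (fun a => side (e a)) (fun a b hab => ?_) p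
    obtain ⟨u, hu, v, hv, huv⟩ := h3 a b hab
    exact (hc a _ (he a) u hu).trans ((hside u v huv).trans (hc b v hv _ (he b)))
  exact (hc w v hv _ (he w)).trans h4

theorem comp_minor {X Y W : Type} {S : SimpleGraph X} {G : SimpleGraph Y} {H : SimpleGraph W}
    (ι : Y → X) (hι : Function.Injective ι) (hadj : ∀ a b, S.Adj (ι a) (ι b) → G.Adj a b)
    (B : W → Set X) (h1 : ∀ w, (S.induce (B w)).Connected)
    (h2 : ∀ x y, x ≠ y → Disjoint (B x) (B y))
    (h3 : ∀ x y, H.Adj x y → ∃ u ∈ B x, ∃ v ∈ B y, S.Adj u v)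
    (hB : ∀ w, ∀ v ∈ B w, ∃ a, ι a = v) : IsMinor H G := by
  refine ⟨fun w => ι ⁻¹' (B w), fun w => ?_, fun x y hxy => ?_, fun x y hxy => ?_⟩
  · choose g hg using hB w
    let f : S.induce (B w) →g G.induce (ι ⁻¹' (B w)) :=
      ⟨fun v => ⟨g v.1 v.2, by
        rw [Set.mem_preimage, hg]
        exact v.2⟩, fun {u v} huv => by
        apply hadj
        show S.Adj (ι (g u.1 u.2)) (ι (g v.1 v.2))
        rw [hg, hg]
        exact huv⟩
    refine (h1 w).map f ?_
    rintro ⟨a, ha⟩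
    refine ⟨⟨ι a, ha⟩, ?_⟩
    apply Subtype.ext
    exact hι (hg (ι a) ha)
  · exact Disjoint.preimage ι (h2 x y hxy)
  · obtain ⟨u, hu, v, hv, huv⟩ := h3 x y hxy
    obtain ⟨a, rfl⟩ := hB x u hu
    obtain ⟨b, rfl⟩ := hB y v hv
    exact ⟨a, hu, b, hv, hadj a b huv⟩

theorem t_COPY : S_COPY := by
  intro F hF V G k hG H hH hm
  obtain ⟨B, h1, h2, h3⟩ := hm
  obtain ⟨t, ht⟩ := one_side (S := cop G k) (fun p => p.2) (fun a b h => h.1) (hF.2 H hH).1 B h1 h3
  refine hG H hH (comp_minor (S := cop G k) (fun v => (v, t)) (fun u v h => congrArg Prod.fst h)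
    (fun a b h => h.2) B h1 h2 h3 ?_)
  rintro w ⟨v, b⟩ hv
  exact ⟨v, by rw [← ht w _ hv]⟩

theorem free_sum {F : Set Gr} (hF : Good F) {n m : ℕ} (G₁ : SimpleGraph (Fin n))
    (G₂ : SimpleGraph (Fin m)) (h₁ : Free F G₁) (h₂ : Free F G₂) : Free F (G₁ ⊕g G₂) := by
  intro H hH hm
  obtain ⟨B, h1, h2, h3⟩ := hm
  obtain ⟨t, ht⟩ := one_side (S := G₁ ⊕g G₂) (fun p => p.isLeft) (fun a b h => by
    rcases a with a | a <;> rcases b with b | b <;> simp at h ⊢) (hF.2 H hH).1 B h1 h3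
  cases t with
  | true =>
    refine h₁ H hH (comp_minor (S := G₁ ⊕g G₂) Sum.inl Sum.inl_injective
      (fun a b h => by simpa using h) B h1 h2 h3 ?_)
    rintro w (v | v) hv
    · exact ⟨v, rfl⟩
    · have := ht w _ hv
      simp at this
  | false =>
    refine h₂ H hH (comp_minor (S := G₁ ⊕g G₂) Sum.inr Sum.inr_injective
      (fun a b h => by simpa using h) B h1 h2 h3 ?_)
    rintro w (v | v) hv
    · have := ht w _ hv
      simp at this
    · exact ⟨v, rfl⟩

theorem t_SUMF : S_SUMF := by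
  intro F hF n m G₁ G₂ h₁ h₂
  have hfree := free_sum hF G₁ G₂ h₁ h₂
  refine ⟨(G₁ ⊕g G₂).comap finSumFinEquiv.symm, ?_, ?_⟩
  · intro H hH hm
    obtain ⟨B, a1, a2, a3⟩ := hm
    refine hfree H hH (comp_minor (S := (G₁ ⊕g G₂).comap finSumFinEquiv.symm)
      (fun x => finSumFinEquiv x) finSumFinEquiv.injective (fun a b h => by
        rw [SimpleGraph.comap_adj, Equiv.symm_apply_apply, Equiv.symm_apply_apply] at h
        exact h) B a1 a2 a3 (fun w v _ => ⟨finSumFinEquiv.symm v, by simp⟩))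
  · have i : (G₁ ⊕g G₂).comap finSumFinEquiv.symm ≃g (G₁ ⊕g G₂) :=
      ⟨finSumFinEquiv.symm, fun {a b} => Iff.rfl⟩
    have e1 : ((G₁ ⊕g G₂).comap finSumFinEquiv.symm).edgeSet.ncard =
        Nat.card (G₁.edgeSet ⊕ G₂.edgeSet) :=
      Nat.card_congr (i.mapEdgeSet.trans edgeSetSumEquiv)
    rw [e1, Nat.card_sum]
    rfl

end Run7.h136.GM
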