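-- module Pool.Agent.Run7.h136.GM.MAD (contains t_MAD)
import Pool.Agent.Run7.h834.GM.Iface
import Pool.Agent.R34.FH.Core

set_option autoImplicit false

/-!
# Project GM (helper834), piece MAD
-/

namespace Run7.h136.GM

open SimpleGraph Filter Topology
open Pool.Agent.TH507.Host Run7.h834.GM

theorem pr_eq {V : Type} [Fintype V] (G : SimpleGraph V) :
    Pool.Agent.R34.FH.pr G = 2 * G.edgeSet.ncard := by
  classical
  have h1 : G.edgeSet.ncard = G.edgeFinset.card := by
    rw [← SimpleGraph.coe_edgeFinset, Set.ncard_coe_finset]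
  rw [h1, ← SimpleGraph.sum_degrees_eq_twice_card_edges]
  unfold Pool.Agent.R34.FH.pr
  rw [Finset.card_filter, ← Finset.univ_product_univ, Finset.sum_product]
  refine Finset.sum_congr rfl fun v _ => ?_
  rw [← Finset.card_filter, ← SimpleGraph.card_neighborFinset_eq_degree]
  congr 1
  ext y
  simp

theorem t_MAD : S_MAD := by
  classical
  rintro F ⟨H, hH⟩
  obtain ⟨W, hW3, hW⟩ : ∃ W : ℕ, 3 ≤ W ∧ (H.1 : ℝ) * ((4 / 5 : ℝ) ^ W) ^ W ≤ 1 / 4 := by
    have h1 : Tendsto (fun W : ℕ => (H.1 : ℝ) * (4 / 5 : ℝ) ^ W) atTop (𝓝 ((H.1 : ℝ) * 0)) :=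
      (tendsto_pow_atTop_nhds_zero_of_lt_one (by norm_num) (by norm_num)).const_mul _
    rw [mul_zero] at h1
    have h2 := h1.eventually_le_const (show (0 : ℝ) < 1 / 4 by norm_num)
    obtain ⟨W, hW, hW3⟩ := (h2.and (eventually_ge_atTop 3)).exists
    refine ⟨W, hW3, le_trans ?_ hW⟩
    refine mul_le_mul_of_nonneg_left ?_ (Nat.cast_nonneg _)
    have h4 : (0 : ℝ) ≤ (4 / 5 : ℝ) ^ W := by positivity
    have h5 : ((4 / 5 : ℝ)) ^ W ≤ 1 := pow_le_one₀ (by norm_num) (by norm_num)
    calc ((4 / 5 : ℝ) ^ W) ^ W ≤ ((4 / 5 : ℝ) ^ W) ^ 1 := pow_le_pow_of_le_one h4 h5 (by omega)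
      _ = (4 / 5 : ℝ) ^ W := pow_one _
  refine ⟨300 * (H.1 * W), fun V _ G hG => ?_⟩
  by_contra hc
  push Not at hc
  have hV : 0 < Fintype.card V := by
    by_contra h0
    have h0' : Fintype.card V = 0 := by omega
    have : IsEmpty V := Fintype.card_eq_zero_iff.1 h0'
    have h1 : G.edgeSet = ∅ := by
      ext e
      induction e with
      | _ a b => exact (IsEmpty.false a).elim
    rw [h1, Set.ncard_empty] at hc
    omega
  refine hG H hH (Pool.Agent.R34.FH.force H.2 (fun _ => W) (fun _ => hW3) (fun x => ?_) G hV ?_)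
  · rw [Finset.sum_const, nsmul_eq_mul]
    refine le_trans (mul_le_mul_of_nonneg_right ?_ (by positivity)) hW
    have h1 := Finset.card_le_univ (Finset.univ.filter (fun y => y < x ∧ H.2.Adj y x))
    rw [Fintype.card_fin] at h1
    exact_mod_cast h1
  · rw [pr_eq, Finset.sum_const, Finset.card_univ, Fintype.card_fin, smul_eq_mul]
    have : 600 * (H.1 * W) * Fintype.card V = 2 * (300 * (H.1 * W) * Fintype.card V) := by ring
    omega

end Run7.h136.GM
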